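import Pool.Agent.Q117.NE.Final

/-!
# `(n, e) → (9, 18)` only for `(n, e) = (9, 18)`

For all `n ≥ 9` and `0 ≤ e ≤ n(n-1)/2`, every graph with `n` vertices and `e` edges has an induced
subgraph with `9` vertices and `18` edges if and only if `n = 9` and `e = 18`.
-/

set_option autoImplicit false

namespace Pool.Agent.Results.MP_3da5e8_co.OnlyTrivialPair

/-- The number of edges of `G` with both ends in `S` (the number of edges of the subgraph induced
by `S`). -/
noncomputable def edgesIn {V : Type*} (G : SimpleGraph V) (S : Finset V) : ℕ :=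
  {e ∈ G.edgeSet | ∀ v ∈ e, v ∈ S}.ncard

/-- The relation `(n, e) → (k, l)`: every graph with `n` vertices and `e` edges has a set of `k`
vertices spanning exactly `l` or exactly `k(k-1)/2 - l` edges. -/
def Arrow (n e k l : ℕ) : Prop :=
  ∀ G : SimpleGraph (Fin n), G.edgeSet.ncard = e →
    ∃ S : Finset (Fin n), S.card = k ∧ (edgesIn G S = l ∨ edgesIn G S = k.choose 2 - l)

/-- For `n ≥ 9` and `0 ≤ e ≤ n(n-1)/2` the relation `(n, e) → (9, 18)` holds if and only if
`(n, e) = (9, 18)`. -/
theorem result : ∀ n e : ℕ, 9 ≤ n → e ≤ n.choose 2 → (Arrow n e 9 18 ↔ n = 9 ∧ e = 18) := by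
  intro n e hn he
  have h36 : (9 : ℕ).choose 2 - 18 = 18 := by decide
  constructor
  · intro h
    by_contra hne
    obtain ⟨G, hG, hN⟩ : ∃ G : SimpleGraph (Fin n), Q117.NE.ds G Finset.univ = 2 * e ∧
        Q117.NE.NB G := by
      rcases Nat.lt_or_ge 9 n with h9 | h9
      · exact (Q117.NE.main n e h9 he).fin
      · obtain rfl : n = 9 := le_antisymm h9 hn
        have htop : Q117.NE.ds (⊤ : SimpleGraph (Fin 9)) Finset.univ = 2 * (9 : ℕ).choose 2 := by
          have h1 := Q117.NE.ds_compl (⊤ : SimpleGraph (Fin 9)) Finset.univ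
          have h2 : Q117.NE.ds (⊤ : SimpleGraph (Fin 9))ᶜ Finset.univ = 0 := by
            unfold Q117.NE.ds
            simp
          rw [h2, zero_add] at h1
          rw [h1]
          decide
        obtain ⟨H, -, hH⟩ := Q117.NE.exists_sub _ _ e htop he
        refine ⟨H, hH, fun S hS => ?_⟩
        have : S = Finset.univ := Finset.eq_univ_of_card S (by rw [hS, Fintype.card_fin])
        rw [this, hH]
        intro h
        exact hne ⟨rfl, by omega⟩
    have hE : G.edgeSet.ncard = e := by
      have := Q117.NE.ds_univ G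
      omega
    obtain ⟨S, hS, hS2⟩ := h G hE
    rw [h36, or_self] at hS2
    apply hN S hS
    rw [Q117.NE.ds_eq]
    change 2 * edgesIn G S = 36
    rw [hS2]
  · rintro ⟨rfl, rfl⟩ G hG
    refine ⟨Finset.univ, by simp, Or.inl ?_⟩
    rw [← hG]
    unfold edgesIn
    congr 1
    ext e
    simp

end Pool.Agent.Results.MP_3da5e8_co.OnlyTrivialPair
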